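import Mathlib.Algebra.GroupWithZero.Associated
import Mathlib.Algebra.BigOperators.Associated
import Mathlib.GroupTheory.Finiteness
import Mathlib.Data.ENat.Lattice
import Mathlib.Data.Finsupp.Multiset
import Mathlib.Algebra.Order.Group.Multiset
import Mathlib.Tactic

/-!
MP_d1ccd0_al, Question 1, full negative answer.

In the free abelian monoid `F` on three primes `x, y, w` let `I` be the ideal generated by
`x y, x ^ 2 w, y ^ 2 w, w ^ 2`.  Then `H = {1} ∪ I` is a conductor submonoid of `F`, and the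
element `a_j = x ^ (j - 1) y ^ (j - 1) w ^ (3 j - 2)` has, for `j ≥ 7`, exactly two factorizations
of length `j`, namely `(x ^ (j - 1) w) (y w ^ 3) ^ (j - 1)` and `(y ^ (j - 1) w) (x w ^ 3) ^ (j - 1)`.
They have no atom in common, so their distance is `j`, and `c_eq (a_j) ≥ j`.
-/

set_option autoImplicit false

namespace Pool.Agent.Results.MP_d1ccd0_al.InfiniteMonotoneCatenary

open Classical in
/-- The distance `d(z, z')` of two factorizations. -/
noncomputable def fdist {α : Type} (z z' : Multiset α) : ℕ :=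
  max (Multiset.card (z - z ∩ z')) (Multiset.card (z' - z ∩ z'))

/-- `Z(a)`: the factorizations of `a`, i.e. the multisets of atoms of `M_red` with product
`a M^×`. -/
def Fact {M : Type} [CommMonoid M] (a : M) : Set (Multiset (Associates M)) :=
  {z | (∀ p ∈ z, Irreducible p) ∧ z.prod = Associates.mk a}

/-- `Z_k(a)`: the factorizations of `a` of length `k`. -/
def FactLen {M : Type} [CommMonoid M] (a : M) (k : ℕ) : Set (Multiset (Associates M)) :=
  {z | z ∈ Fact a ∧ Multiset.card z = k}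

/-- `L(a)`: the set of lengths of `a`. -/
def Lengths {M : Type} [CommMonoid M] (a : M) : Set ℕ :=
  {k | (FactLen a k).Nonempty}

/-- There is a monotone `N`-chain in `Z(a)` from `z` to `z'`. -/
def MonotoneChain {M : Type} [CommMonoid M] (a : M) (N : ℕ∞) (z z' : Multiset (Associates M)) :
    Prop :=
  ∃ (r : ℕ) (c : ℕ → Multiset (Associates M)), c 0 = z ∧ c r = z' ∧ (∀ i ≤ r, c i ∈ Fact a) ∧
    (∀ i < r, (fdist (c i) (c (i + 1)) : ℕ∞) ≤ N) ∧
    ((∀ i < r, Multiset.card (c i) ≤ Multiset.card (c (i + 1))) ∨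
      (∀ i < r, Multiset.card (c (i + 1)) ≤ Multiset.card (c i)))

/-- `c_eq(a)`. -/
noncomputable def cEqElem {M : Type} [CommMonoid M] (a : M) : ℕ∞ :=
  sInf {N : ℕ∞ | ∀ z ∈ Fact a, ∀ z' ∈ Fact a, Multiset.card z = Multiset.card z' →
    MonotoneChain a N z z'}

/-- `c_eq(M)`. -/
noncomputable def cEq (M : Type) [CommMonoid M] : ℕ∞ := ⨆ a : M, cEqElem a

/-- Adjacent lengths of `a`. -/
def AdjacentLengths {M : Type} [CommMonoid M] (a : M) (k l : ℕ) : Prop :=
  k ≠ l ∧ k ∈ Lengths a ∧ l ∈ Lengths a ∧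
    ∀ m ∈ Lengths a, ¬ ((k < m ∧ m < l) ∨ (l < m ∧ m < k))

/-- The distance of two sets of factorizations. -/
noncomputable def setDist {α : Type} (X Y : Set (Multiset α)) : ℕ∞ :=
  ⨅ x ∈ X, ⨅ y ∈ Y, (fdist x y : ℕ∞)

/-- `c_adj(M)`. -/
noncomputable def cAdj (M : Type) [CommMonoid M] : ℕ∞ :=
  ⨆ a : M, ⨆ k : ℕ, ⨆ l : ℕ, ⨆ _ : AdjacentLengths a k l, setDist (FactLen a k) (FactLen a l)

/-- The monotone catenary degree `c_mon(M)`. -/
noncomputable def cMon (M : Type) [CommMonoid M] : ℕ∞ := max (cEq M) (cAdj M)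

/-- Factorial monoids: `F ≅ F^× × 𝓕(P)` with `𝓕(P)` free abelian on a set `P`. -/
def IsFactorial (F : Type) [CommMonoid F] : Prop :=
  ∃ P : Type, Nonempty (F ≃* Fˣ × Multiplicative (P →₀ ℕ))

/-- `H` is a conductor submonoid of `F`: every non-invertible element `a` of `H` satisfies
`a F ⊆ H`. -/
def IsConductorSubmonoid {F : Type} [CommMonoid F] (H : Submonoid F) : Prop :=
  ∀ a : H, ¬ IsUnit a → ∀ f : F, (a : F) * f ∈ H

/-! ### The example -/

/-- the free abelian monoid on three primes -/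
abbrev F : Type := Multiplicative (Fin 3 →₀ ℕ)

/-- the element `x ^ i y ^ j w ^ k` of `F` -/
noncomputable def mon (i j k : ℕ) : F :=
  Multiplicative.ofAdd (Finsupp.single 0 i + Finsupp.single 1 j + Finsupp.single 2 k)

/-- exponent of the prime number `t` -/
def ex (t : Fin 3) (a : F) : ℕ := (Multiplicative.toAdd a) t

lemma ex_mul (t : Fin 3) (a b : F) : ex t (a * b) = ex t a + ex t b := rfl

lemma ex_one (t : Fin 3) : ex t (1 : F) = 0 := rfl

lemma ex0_mon (i j k : ℕ) : ex 0 (mon i j k) = i := by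
  simp [ex, mon]

lemma ex1_mon (i j k : ℕ) : ex 1 (mon i j k) = j := by
  simp [ex, mon]

lemma ex2_mon (i j k : ℕ) : ex 2 (mon i j k) = k := by
  simp [ex, mon]

lemma F_ext {a b : F} (h0 : ex 0 a = ex 0 b) (h1 : ex 1 a = ex 1 b) (h2 : ex 2 a = ex 2 b) :
    a = b := by
  apply Multiplicative.toAdd.injective
  ext t
  fin_cases t
  · exact h0
  · exact h1
  · exact h2

/-- the monomial ideal generated by `x y, x ^ 2 w, y ^ 2 w, w ^ 2` -/
def InI (a : F) : Prop :=
  (1 ≤ ex 0 a ∧ 1 ≤ ex 1 a) ∨ (2 ≤ ex 0 a ∧ 1 ≤ ex 2 a) ∨ (2 ≤ ex 1 a ∧ 1 ≤ ex 2 a) ∨ 2 ≤ ex 2 a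

lemma InI_mul {a : F} (h : InI a) (b : F) : InI (a * b) := by
  unfold InI at *
  simp only [ex_mul]
  omega

/-- the submonoid `{1} ∪ I` -/
def H : Submonoid F where
  carrier := {a | a = 1 ∨ InI a}
  one_mem' := Or.inl rfl
  mul_mem' := by
    rintro a b (rfl | ha) hb
    · rwa [one_mul]
    · exact Or.inr (InI_mul ha b)

lemma mem_H {a : F} : a ∈ H ↔ a = 1 ∨ InI a := Iff.rfl

lemma isUnit_H_iff (a : H) : IsUnit a ↔ a = 1 := by
  constructor
  · rintro ⟨u, rfl⟩
    have h : ((u : H) : F) * (((u⁻¹ : Hˣ) : H) : F) = 1 :=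
      congrArg (Subtype.val) (Units.mul_inv u)
    apply Subtype.ext
    have h0 := congrArg (ex 0) h
    have h1 := congrArg (ex 1) h
    have h2 := congrArg (ex 2) h
    rw [ex_mul, ex_one] at h0 h1 h2
    apply F_ext
    · show ex 0 _ = 0
      omega
    · show ex 1 _ = 0
      omega
    · show ex 2 _ = 0
      omega
  · rintro rfl
    exact isUnit_one

lemma not_unit_iff (a : H) : ¬ IsUnit a ↔ InI (a : F) := by
  rw [isUnit_H_iff]
  constructor
  · intro h
    rcases a.2 with h1 | h1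
    · exact absurd (Subtype.ext h1) h
    · exact h1
  · rintro h rfl
    revert h
    simp [InI, ex_one]

lemma assoc_iff (a b : H) : Associated a b ↔ a = b := by
  constructor
  · rintro ⟨u, rfl⟩
    have : (u : H) = 1 := (isUnit_H_iff _).1 u.isUnit
    rw [this, mul_one]
  · rintro rfl
    exact Associated.refl _

lemma mk_inj {a b : H} : Associates.mk a = Associates.mk b ↔ a = b := by
  rw [Associates.mk_eq_mk_iff_associated, assoc_iff]

/-- decompositions destroy irreducibility -/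
lemma not_irred {p : H} {a b : F} (ha : InI a) (hb : InI b) (h : (p : F) = a * b) :
    ¬ Irreducible p := by
  intro hp
  have hp' : p = (⟨a, Or.inr ha⟩ : H) * ⟨b, Or.inr hb⟩ := Subtype.ext h
  rcases hp.isUnit_or_isUnit hp' with h1 | h1
  · exact (not_unit_iff _).2 ha h1
  · exact (not_unit_iff _).2 hb h1

lemma atom_a {p : H} (hp : Irreducible p) : ex 2 (p : F) ≤ 3 := by
  by_contra hcon
  push Not at hcon
  refine not_irred (a := mon 0 0 2) (b := mon (ex 0 (p : F)) (ex 1 (p : F)) (ex 2 (p : F) - 2))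
    ?_ ?_ ?_ hp
  · simp only [InI, ex0_mon, ex1_mon, ex2_mon]; omega
  · simp only [InI, ex0_mon, ex1_mon, ex2_mon]; omega
  · apply F_ext <;> simp only [ex_mul, ex0_mon, ex1_mon, ex2_mon] <;> omega

lemma atom_b {p : H} (hp : Irreducible p) (h : ex 2 (p : F) = 3) :
    ex 0 (p : F) + ex 1 (p : F) ≤ 1 := by
  by_contra hcon
  push Not at hcon
  by_cases h1 : 1 ≤ ex 0 (p : F) ∧ 1 ≤ ex 1 (p : F)
  · refine not_irred (a := mon 1 1 0)
      (b := mon (ex 0 (p : F) - 1) (ex 1 (p : F) - 1) 3) ?_ ?_ ?_ hp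
    · simp only [InI, ex0_mon, ex1_mon, ex2_mon]; omega
    · simp only [InI, ex0_mon, ex1_mon, ex2_mon]; omega
    · apply F_ext <;> simp only [ex_mul, ex0_mon, ex1_mon, ex2_mon] <;> omega
  by_cases h2 : 2 ≤ ex 0 (p : F)
  · refine not_irred (a := mon 2 0 1)
      (b := mon (ex 0 (p : F) - 2) (ex 1 (p : F)) 2) ?_ ?_ ?_ hp
    · simp only [InI, ex0_mon, ex1_mon, ex2_mon]; omega
    · simp only [InI, ex0_mon, ex1_mon, ex2_mon]; omega
    · apply F_ext <;> simp only [ex_mul, ex0_mon, ex1_mon, ex2_mon] <;> omega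
  · refine not_irred (a := mon 0 2 1)
      (b := mon (ex 0 (p : F)) (ex 1 (p : F) - 2) 2) ?_ ?_ ?_ hp
    · simp only [InI, ex0_mon, ex1_mon, ex2_mon]; omega
    · simp only [InI, ex0_mon, ex1_mon, ex2_mon]; omega
    · apply F_ext <;> simp only [ex_mul, ex0_mon, ex1_mon, ex2_mon] <;> omega

lemma atom_c {p : H} (hp : Irreducible p) (h : ex 2 (p : F) = 2) :
    ex 0 (p : F) + ex 1 (p : F) ≤ 3 := by
  by_contra hcon
  push Not at hcon
  by_cases h1 : 1 ≤ ex 0 (p : F) ∧ 1 ≤ ex 1 (p : F)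
  · refine not_irred (a := mon 1 1 0)
      (b := mon (ex 0 (p : F) - 1) (ex 1 (p : F) - 1) 2) ?_ ?_ ?_ hp
    · simp only [InI, ex0_mon, ex1_mon, ex2_mon]; omega
    · simp only [InI, ex0_mon, ex1_mon, ex2_mon]; omega
    · apply F_ext <;> simp only [ex_mul, ex0_mon, ex1_mon, ex2_mon] <;> omega
  by_cases h2 : 4 ≤ ex 0 (p : F)
  · refine not_irred (a := mon 2 0 1)
      (b := mon (ex 0 (p : F) - 2) (ex 1 (p : F)) 1) ?_ ?_ ?_ hp
    · simp only [InI, ex0_mon, ex1_mon, ex2_mon]; omega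
    · simp only [InI, ex0_mon, ex1_mon, ex2_mon]; omega
    · apply F_ext <;> simp only [ex_mul, ex0_mon, ex1_mon, ex2_mon] <;> omega
  · refine not_irred (a := mon 0 2 1)
      (b := mon (ex 0 (p : F)) (ex 1 (p : F) - 2) 1) ?_ ?_ ?_ hp
    · simp only [InI, ex0_mon, ex1_mon, ex2_mon]; omega
    · simp only [InI, ex0_mon, ex1_mon, ex2_mon]; omega
    · apply F_ext <;> simp only [ex_mul, ex0_mon, ex1_mon, ex2_mon] <;> omega

lemma atom_d {p : H} (hp : Irreducible p) (h : ex 2 (p : F) = 1) :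
    ex 0 (p : F) = 0 ∨ ex 1 (p : F) = 0 ∨ ex 0 (p : F) + ex 1 (p : F) ≤ 3 := by
  by_contra hcon
  push Not at hcon
  refine not_irred (a := mon 1 1 0)
    (b := mon (ex 0 (p : F) - 1) (ex 1 (p : F) - 1) 1) ?_ ?_ ?_ hp
  · simp only [InI, ex0_mon, ex1_mon, ex2_mon]; omega
  · simp only [InI, ex0_mon, ex1_mon, ex2_mon]; omega
  · apply F_ext <;> simp only [ex_mul, ex0_mon, ex1_mon, ex2_mon] <;> omega

lemma irred_of {p : H} (hp : InI (p : F))
    (h : ∀ a b : F, InI a → InI b → (p : F) = a * b → False) : Irreducible p := by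
  refine ⟨(not_unit_iff _).2 hp, ?_⟩
  intro a b hab
  by_contra hcon
  push Not at hcon
  exact h a b ((not_unit_iff a).1 hcon.1) ((not_unit_iff b).1 hcon.2)
    (by rw [hab]; rfl)

/-! ### Sums of exponents over a multiset of atoms -/

/-- the sum of the exponents of the prime number `t` -/
def sx (t : Fin 3) (s : Multiset H) : ℕ := (s.map fun p : H => ex t (p : F)).sum

lemma sx_cons (t : Fin 3) (p : H) (s : Multiset H) : sx t (p ::ₘ s) = ex t (p : F) + sx t s := by
  simp [sx]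

lemma sx_zero (t : Fin 3) : sx t 0 = 0 := by simp [sx]

lemma sx_prod (t : Fin 3) (s : Multiset H) : ex t (s.prod : F) = sx t s := by
  induction s using Multiset.induction_on with
  | empty => simp [sx_zero, ex_one]
  | cons p s ih => rw [Multiset.prod_cons, sx_cons, ← ih]; rfl

/-- if all exponents of `w` are at least `2`, the total degree in `x, y` is bounded -/
lemma total_bound (s : Multiset H) (hs : ∀ p ∈ s, Irreducible p)
    (h2 : ∀ p ∈ s, 2 ≤ ex 2 (p : F)) :
    sx 0 s + sx 1 s + 2 * sx 2 s ≤ 7 * Multiset.card s := by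
  induction s using Multiset.induction_on with
  | empty => simp [sx_zero]
  | cons p s ih =>
    have h1 := ih (fun q hq => hs q (Multiset.mem_cons_of_mem hq))
      (fun q hq => h2 q (Multiset.mem_cons_of_mem hq))
    have hp := hs p (Multiset.mem_cons_self p s)
    have h3 := h2 p (Multiset.mem_cons_self p s)
    have h4 := atom_a hp
    rw [sx_cons, sx_cons, sx_cons, Multiset.card_cons]
    have h5 : ex 0 (p : F) + ex 1 (p : F) + 2 * ex 2 (p : F) ≤ 7 := by
      rcases (show ex 2 (p : F) = 2 ∨ ex 2 (p : F) = 3 by omega) with h | h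
      · have := atom_c hp h
        omega
      · have := atom_b hp h
        omega
    omega

lemma w_le (s : Multiset H) (hs : ∀ p ∈ s, Irreducible p) : sx 2 s ≤ 3 * Multiset.card s := by
  induction s using Multiset.induction_on with
  | empty => simp [sx_zero]
  | cons p s ih =>
    have h1 := ih (fun q hq => hs q (Multiset.mem_cons_of_mem hq))
    have h4 := atom_a (hs p (Multiset.mem_cons_self p s))
    rw [sx_cons, Multiset.card_cons]
    omega

/-- if the total exponent of `w` is maximal, every atom has exponent `3` in `w` -/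
lemma w_eq (s : Multiset H) (hs : ∀ p ∈ s, Irreducible p) (h : sx 2 s = 3 * Multiset.card s) :
    ∀ p ∈ s, ex 2 (p : F) = 3 := by
  intro p hp
  obtain ⟨t, rfl⟩ := Multiset.exists_cons_of_mem hp
  have h1 := w_le t (fun q hq => hs q (Multiset.mem_cons_of_mem hq))
  have h4 := atom_a (hs p (Multiset.mem_cons_self p t))
  rw [sx_cons, Multiset.card_cons] at h
  omega

lemma xy_le (s : Multiset H) (hs : ∀ p ∈ s, Irreducible p) (h3 : ∀ p ∈ s, ex 2 (p : F) = 3) :
    sx 0 s + sx 1 s ≤ Multiset.card s := by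
  induction s using Multiset.induction_on with
  | empty => simp [sx_zero]
  | cons p s ih =>
    have h1 := ih (fun q hq => hs q (Multiset.mem_cons_of_mem hq))
      (fun q hq => h3 q (Multiset.mem_cons_of_mem hq))
    have h4 := atom_b (hs p (Multiset.mem_cons_self p s)) (h3 p (Multiset.mem_cons_self p s))
    rw [sx_cons, sx_cons, Multiset.card_cons]
    omega

lemma inI_yw : InI (mon 0 1 3) := by simp only [InI, ex0_mon, ex1_mon, ex2_mon]; omega

lemma inI_xw : InI (mon 1 0 3) := by simp only [InI, ex0_mon, ex1_mon, ex2_mon]; omega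

/-- the atom `y w ^ 3` -/
noncomputable def aY : H := ⟨mon 0 1 3, Or.inr inI_yw⟩

/-- the atom `x w ^ 3` -/
noncomputable def aX : H := ⟨mon 1 0 3, Or.inr inI_xw⟩

/-- the atom `x ^ n w` -/
noncomputable def bX (n : ℕ) (hn : 2 ≤ n) : H :=
  ⟨mon n 0 1, Or.inr (by simp only [InI, ex0_mon, ex1_mon, ex2_mon]; omega)⟩

/-- the atom `y ^ n w` -/
noncomputable def bY (n : ℕ) (hn : 2 ≤ n) : H :=
  ⟨mon 0 n 1, Or.inr (by simp only [InI, ex0_mon, ex1_mon, ex2_mon]; omega)⟩

lemma aY_irred : Irreducible aY := by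
  apply irred_of inI_yw
  intro a b ha hb hab
  have h0 := congrArg (ex 0) hab
  have h1 := congrArg (ex 1) hab
  have h2 := congrArg (ex 2) hab
  simp only [aY, ex_mul, ex0_mon, ex1_mon, ex2_mon] at h0 h1 h2
  unfold InI at ha hb
  omega

lemma aX_irred : Irreducible aX := by
  apply irred_of inI_xw
  intro a b ha hb hab
  have h0 := congrArg (ex 0) hab
  have h1 := congrArg (ex 1) hab
  have h2 := congrArg (ex 2) hab
  simp only [aX, ex_mul, ex0_mon, ex1_mon, ex2_mon] at h0 h1 h2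
  unfold InI at ha hb
  omega

lemma bX_irred (n : ℕ) (hn : 2 ≤ n) : Irreducible (bX n hn) := by
  apply irred_of (by
    show InI (mon n 0 1)
    simp only [InI, ex0_mon, ex1_mon, ex2_mon]; omega)
  intro a b ha hb hab
  have h0 := congrArg (ex 0) hab
  have h1 := congrArg (ex 1) hab
  have h2 := congrArg (ex 2) hab
  simp only [bX, ex_mul, ex0_mon, ex1_mon, ex2_mon] at h0 h1 h2
  unfold InI at ha hb
  omega

lemma bY_irred (n : ℕ) (hn : 2 ≤ n) : Irreducible (bY n hn) := by
  apply irred_of (by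
    show InI (mon 0 n 1)
    simp only [InI, ex0_mon, ex1_mon, ex2_mon]; omega)
  intro a b ha hb hab
  have h0 := congrArg (ex 0) hab
  have h1 := congrArg (ex 1) hab
  have h2 := congrArg (ex 2) hab
  simp only [bY, ex_mul, ex0_mon, ex1_mon, ex2_mon] at h0 h1 h2
  unfold InI at ha hb
  omega

lemma all_y (s : Multiset H) (hs : ∀ p ∈ s, Irreducible p) (h3 : ∀ p ∈ s, ex 2 (p : F) = 3)
    (h1 : sx 1 s = Multiset.card s) : s = Multiset.replicate (Multiset.card s) aY := by
  rw [Multiset.eq_replicate]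
  refine ⟨rfl, ?_⟩
  intro p hp
  obtain ⟨t, rfl⟩ := Multiset.exists_cons_of_mem hp
  have h4 := xy_le t (fun q hq => hs q (Multiset.mem_cons_of_mem hq))
    (fun q hq => h3 q (Multiset.mem_cons_of_mem hq))
  have h5 := atom_b (hs p (Multiset.mem_cons_self p t)) (h3 p (Multiset.mem_cons_self p t))
  have h6 := h3 p (Multiset.mem_cons_self p t)
  rw [sx_cons, Multiset.card_cons] at h1
  apply Subtype.ext
  apply F_ext
  · show _ = ex 0 (mon 0 1 3)
    rw [ex0_mon]; omega
  · show _ = ex 1 (mon 0 1 3)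
    rw [ex1_mon]; omega
  · show _ = ex 2 (mon 0 1 3)
    rw [ex2_mon]; omega

lemma all_x (s : Multiset H) (hs : ∀ p ∈ s, Irreducible p) (h3 : ∀ p ∈ s, ex 2 (p : F) = 3)
    (h1 : sx 0 s = Multiset.card s) : s = Multiset.replicate (Multiset.card s) aX := by
  rw [Multiset.eq_replicate]
  refine ⟨rfl, ?_⟩
  intro p hp
  obtain ⟨t, rfl⟩ := Multiset.exists_cons_of_mem hp
  have h4 := xy_le t (fun q hq => hs q (Multiset.mem_cons_of_mem hq))
    (fun q hq => h3 q (Multiset.mem_cons_of_mem hq))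
  have h5 := atom_b (hs p (Multiset.mem_cons_self p t)) (h3 p (Multiset.mem_cons_self p t))
  have h6 := h3 p (Multiset.mem_cons_self p t)
  rw [sx_cons, Multiset.card_cons] at h1
  apply Subtype.ext
  apply F_ext
  · show _ = ex 0 (mon 1 0 3)
    rw [ex0_mon]; omega
  · show _ = ex 1 (mon 1 0 3)
    rw [ex1_mon]; omega
  · show _ = ex 2 (mon 1 0 3)
    rw [ex2_mon]; omega

/-- The two factorizations of length `n + 1` of `x ^ n y ^ n w ^ (3 n + 1)`. -/
lemma classify (n : ℕ) (hn : 6 ≤ n) (hn2 : 2 ≤ n) (s : Multiset H) (hs : ∀ p ∈ s, Irreducible p)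
    (hc : Multiset.card s = n + 1) (h0 : sx 0 s = n) (h1 : sx 1 s = n)
    (h2 : sx 2 s = 3 * n + 1) :
    s = bX n hn2 ::ₘ Multiset.replicate n aY ∨
      s = bY n hn2 ::ₘ Multiset.replicate n aX := by
  by_cases hall : ∀ p ∈ s, 2 ≤ ex 2 (p : F)
  · have := total_bound s hs hall
    rw [h0, h1, h2, hc] at this
    omega
  push Not at hall
  obtain ⟨p, hp, hp2⟩ := hall
  obtain ⟨t, rfl⟩ := Multiset.exists_cons_of_mem hp
  have hpi := hs p (Multiset.mem_cons_self p t)
  have hti : ∀ q ∈ t, Irreducible q := fun q hq => hs q (Multiset.mem_cons_of_mem hq)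
  rw [Multiset.card_cons] at hc
  rw [sx_cons] at h0 h1 h2
  have hct : Multiset.card t = n := by omega
  have hw := w_le t hti
  have hp1 : ex 2 (p : F) = 1 := by omega
  have hw2 : sx 2 t = 3 * Multiset.card t := by omega
  have ht3 := w_eq t hti hw2
  have hxy := xy_le t hti ht3
  have hd := atom_d hpi hp1
  rcases hd with hd | hd | hd
  · right
    have e1 : ex 1 (p : F) = n := by omega
    have e2 : sx 0 t = Multiset.card t := by omega
    have e3 := all_x t hti ht3 e2
    rw [hct] at e3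
    rw [e3]
    congr 1
    apply Subtype.ext
    apply F_ext
    · show _ = ex 0 (mon 0 n 1)
      rw [ex0_mon]; omega
    · show _ = ex 1 (mon 0 n 1)
      rw [ex1_mon]; omega
    · show _ = ex 2 (mon 0 n 1)
      rw [ex2_mon]; omega
  · left
    have e1 : ex 0 (p : F) = n := by omega
    have e2 : sx 1 t = Multiset.card t := by omega
    have e3 := all_y t hti ht3 e2
    rw [hct] at e3
    rw [e3]
    congr 1
    apply Subtype.ext
    apply F_ext
    · show _ = ex 0 (mon n 0 1)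
      rw [ex0_mon]; omega
    · show _ = ex 1 (mon n 0 1)
      rw [ex1_mon]; omega
    · show _ = ex 2 (mon n 0 1)
      rw [ex2_mon]; omega
  · omega

/-- the element `x ^ n y ^ n w ^ (3 n + 1)` -/
noncomputable def el (n : ℕ) (hn : 1 ≤ n) : H :=
  ⟨mon n n (3 * n + 1), Or.inr (by simp only [InI, ex0_mon, ex1_mon, ex2_mon]; omega)⟩

/-- `H` is reduced: it is isomorphic to `H_red` -/
noncomputable def mkEquiv : H ≃* Associates H :=
  MulEquiv.ofBijective Associates.mkMonoidHom
    ⟨fun _ _ h => mk_inj.1 h, Associates.mk_surjective⟩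

lemma irreducible_mk_iff (p : H) : Irreducible (Associates.mk p) ↔ Irreducible p :=
  MulEquiv.irreducible_iff (x := p) mkEquiv

lemma fact_iff (w : Multiset H) (a : H) :
    w.map Associates.mk ∈ Fact a ↔ (∀ p ∈ w, Irreducible p) ∧ w.prod = a := by
  constructor
  · rintro ⟨h1, h2⟩
    refine ⟨fun p hp => ?_, ?_⟩
    · exact (irreducible_mk_iff p).1 (h1 _ (Multiset.mem_map_of_mem _ hp))
    · rw [Associates.prod_mk] at h2
      exact mk_inj.1 h2
  · rintro ⟨h1, h2⟩
    refine ⟨fun q hq => ?_, ?_⟩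
    · obtain ⟨p, hp, rfl⟩ := Multiset.mem_map.1 hq
      exact (irreducible_mk_iff p).2 (h1 p hp)
    · rw [Associates.prod_mk, h2]

lemma exists_rep (z : Multiset (Associates H)) : ∃ w : Multiset H, w.map Associates.mk = z := by
  induction z using Multiset.induction_on with
  | empty => exact ⟨0, rfl⟩
  | cons p z ih =>
    obtain ⟨w, hw⟩ := ih
    obtain ⟨q, hq⟩ := Associates.mk_surjective p
    exact ⟨q ::ₘ w, by rw [Multiset.map_cons, hw, hq]⟩

/-- the first factorization -/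
noncomputable def Z1 (n : ℕ) (hn : 2 ≤ n) : Multiset (Associates H) :=
  (bX n hn ::ₘ Multiset.replicate n aY).map Associates.mk

/-- the second factorization -/
noncomputable def Z2 (n : ℕ) (hn : 2 ≤ n) : Multiset (Associates H) :=
  (bY n hn ::ₘ Multiset.replicate n aX).map Associates.mk

lemma card_Z1 (n : ℕ) (hn : 2 ≤ n) : Multiset.card (Z1 n hn) = n + 1 := by
  simp [Z1]

lemma card_Z2 (n : ℕ) (hn : 2 ≤ n) : Multiset.card (Z2 n hn) = n + 1 := by
  simp [Z2]

lemma sx_replicate (t : Fin 3) (n : ℕ) (p : H) :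
    sx t (Multiset.replicate n p) = n * ex t (p : F) := by
  simp [sx]

lemma prod_eq_el (n : ℕ) (hn1 : 1 ≤ n) (w : Multiset H) (h0 : sx 0 w = n) (h1 : sx 1 w = n)
    (h2 : sx 2 w = 3 * n + 1) : w.prod = el n hn1 := by
  apply Subtype.ext
  apply F_ext
  · rw [sx_prod, h0]; exact (ex0_mon _ _ _).symm
  · rw [sx_prod, h1]; exact (ex1_mon _ _ _).symm
  · rw [sx_prod, h2]; exact (ex2_mon _ _ _).symm

lemma Z1_fact (n : ℕ) (hn : 2 ≤ n) (hn1 : 1 ≤ n) : Z1 n hn ∈ Fact (el n hn1) := by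
  rw [Z1, fact_iff]
  refine ⟨fun p hp => ?_, ?_⟩
  · rcases Multiset.mem_cons.1 hp with rfl | hp
    · exact bX_irred n hn
    · rw [Multiset.eq_of_mem_replicate hp]
      exact aY_irred
  · have e0 : ex 0 ((bX n hn : H) : F) = n := ex0_mon _ _ _
    have e1 : ex 1 ((bX n hn : H) : F) = 0 := ex1_mon _ _ _
    have e2 : ex 2 ((bX n hn : H) : F) = 1 := ex2_mon _ _ _
    have f0 : ex 0 ((aY : H) : F) = 0 := ex0_mon _ _ _
    have f1 : ex 1 ((aY : H) : F) = 1 := ex1_mon _ _ _
    have f2 : ex 2 ((aY : H) : F) = 3 := ex2_mon _ _ _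
    apply prod_eq_el
    · rw [sx_cons, sx_replicate, e0, f0]; omega
    · rw [sx_cons, sx_replicate, e1, f1]; omega
    · rw [sx_cons, sx_replicate, e2, f2]; omega

lemma Z2_fact (n : ℕ) (hn : 2 ≤ n) (hn1 : 1 ≤ n) : Z2 n hn ∈ Fact (el n hn1) := by
  rw [Z2, fact_iff]
  refine ⟨fun p hp => ?_, ?_⟩
  · rcases Multiset.mem_cons.1 hp with rfl | hp
    · exact bY_irred n hn
    · rw [Multiset.eq_of_mem_replicate hp]
      exact aX_irred
  · have e0 : ex 0 ((bY n hn : H) : F) = 0 := ex0_mon _ _ _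
    have e1 : ex 1 ((bY n hn : H) : F) = n := ex1_mon _ _ _
    have e2 : ex 2 ((bY n hn : H) : F) = 1 := ex2_mon _ _ _
    have f0 : ex 0 ((aX : H) : F) = 1 := ex0_mon _ _ _
    have f1 : ex 1 ((aX : H) : F) = 0 := ex1_mon _ _ _
    have f2 : ex 2 ((aX : H) : F) = 3 := ex2_mon _ _ _
    apply prod_eq_el
    · rw [sx_cons, sx_replicate, e0, f0]; omega
    · rw [sx_cons, sx_replicate, e1, f1]; omega
    · rw [sx_cons, sx_replicate, e2, f2]; omega

lemma fact_classify (n : ℕ) (hn : 6 ≤ n) (hn2 : 2 ≤ n) (hn1 : 1 ≤ n)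
    (z : Multiset (Associates H)) (hz : z ∈ Fact (el n hn1)) (hc : Multiset.card z = n + 1) :
    z = Z1 n hn2 ∨ z = Z2 n hn2 := by
  obtain ⟨w, rfl⟩ := exists_rep z
  rw [fact_iff] at hz
  rw [Multiset.card_map] at hc
  have e : ∀ t, sx t w = ex t (mon n n (3 * n + 1)) := by
    intro t
    rw [← sx_prod, hz.2]
    rfl
  rcases classify n hn hn2 w hz.1 hc ((e 0).trans (ex0_mon _ _ _)) ((e 1).trans (ex1_mon _ _ _))
    ((e 2).trans (ex2_mon _ _ _)) with h | h
  · left; rw [h]; rfl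
  · right; rw [h]; rfl

lemma disj_Z (n : ℕ) (hn : 2 ≤ n) : ∀ q ∈ Z1 n hn, q ∉ Z2 n hn := by
  intro q h1 h2
  obtain ⟨p, hp, rfl⟩ := Multiset.mem_map.1 h1
  obtain ⟨p', hp', he⟩ := Multiset.mem_map.1 h2
  rw [mk_inj] at he
  subst he
  have e0 : ex 0 ((bX n hn : H) : F) = n := ex0_mon _ _ _
  have f0 : ex 0 ((aY : H) : F) = 0 := ex0_mon _ _ _
  have f1 : ex 1 ((aY : H) : F) = 1 := ex1_mon _ _ _
  have g0 : ex 0 ((bY n hn : H) : F) = 0 := ex0_mon _ _ _
  have g1 : ex 1 ((bY n hn : H) : F) = n := ex1_mon _ _ _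
  have k0 : ex 0 ((aX : H) : F) = 1 := ex0_mon _ _ _
  have h3 : ex 0 (p' : F) = n ∨ (ex 0 (p' : F) = 0 ∧ ex 1 (p' : F) = 1) := by
    rcases Multiset.mem_cons.1 hp with rfl | hp
    · left; exact e0
    · right
      rw [Multiset.eq_of_mem_replicate hp]
      exact ⟨f0, f1⟩
  have h4 : (ex 0 (p' : F) = 0 ∧ ex 1 (p' : F) = n) ∨ ex 0 (p' : F) = 1 := by
    rcases Multiset.mem_cons.1 hp' with rfl | hp'
    · left; exact ⟨g0, g1⟩
    · right
      rw [Multiset.eq_of_mem_replicate hp']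
      exact k0
  omega

open Classical in
lemma le_fdist_of_disj {α : Type} (z z' : Multiset α) (h : ∀ q ∈ z, q ∉ z') :
    Multiset.card z ≤ fdist z z' := by
  have h0 : z ∩ z' = 0 := by
    rw [Multiset.eq_zero_iff_forall_notMem]
    intro q hq
    rw [Multiset.mem_inter] at hq
    exact h q hq.1 hq.2
  unfold fdist
  rw [h0, tsub_zero]
  exact le_max_left _ _

lemma fdist_Z (n : ℕ) (hn : 2 ≤ n) : n + 1 ≤ fdist (Z1 n hn) (Z2 n hn) := by
  have h := le_fdist_of_disj _ _ (disj_Z n hn)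
  rw [card_Z1] at h
  exact h

lemma mono_aux (f : ℕ → ℕ) (r : ℕ) (h : ∀ i < r, f i ≤ f (i + 1)) :
    ∀ j, j ≤ r → ∀ i, i ≤ j → f i ≤ f j := by
  intro j
  induction j with
  | zero =>
    intro _ i hi
    rw [Nat.le_zero.1 hi]
  | succ j ih =>
    intro hj i hi
    rcases Nat.lt_or_ge i (j + 1) with h1 | h1
    · exact (ih (by omega) i (by omega)).trans (h j (by omega))
    · rw [le_antisymm hi h1]

lemma anti_aux (f : ℕ → ℕ) (r : ℕ) (h : ∀ i < r, f (i + 1) ≤ f i) :
    ∀ j, j ≤ r → ∀ i, i ≤ j → f j ≤ f i := by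
  intro j
  induction j with
  | zero =>
    intro _ i hi
    rw [Nat.le_zero.1 hi]
  | succ j ih =>
    intro hj i hi
    rcases Nat.lt_or_ge i (j + 1) with h1 | h1
    · exact (h j (by omega)).trans (ih (by omega) i (by omega))
    · rw [le_antisymm hi h1]

lemma le_cEqElem (n : ℕ) (hn : 6 ≤ n) (hn1 : 1 ≤ n) : ((n + 1 : ℕ) : ℕ∞) ≤ cEqElem (el n hn1) := by
  have hn2 : 2 ≤ n := by omega
  apply le_sInf
  intro N hN
  by_contra hcon
  push Not at hcon
  obtain ⟨r, c, hc0, hcr, hcf, hcd, hcm⟩ := hN (Z1 n hn2) (Z1_fact n hn2 hn1) (Z2 n hn2)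
    (Z2_fact n hn2 hn1) (by rw [card_Z1, card_Z2])
  have hcard : ∀ i ≤ r, Multiset.card (c i) = n + 1 := by
    intro i hi
    have ha : Multiset.card (c 0) = n + 1 := by rw [hc0, card_Z1]
    have hb : Multiset.card (c r) = n + 1 := by rw [hcr, card_Z2]
    rcases hcm with h | h
    · have h1 := mono_aux (fun i => Multiset.card (c i)) r h i hi 0 (Nat.zero_le _)
      have h2 := mono_aux (fun i => Multiset.card (c i)) r h r le_rfl i hi
      omega
    · have h1 := anti_aux (fun i => Multiset.card (c i)) r h i hi 0 (Nat.zero_le _)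
      have h2 := anti_aux (fun i => Multiset.card (c i)) r h r le_rfl i hi
      omega
  have hall : ∀ i, i ≤ r → c i = Z1 n hn2 := by
    intro i
    induction i with
    | zero => intro _; exact hc0
    | succ i ih =>
      intro hi
      have h1 := ih (by omega)
      rcases fact_classify n hn hn2 hn1 (c (i + 1)) (hcf _ hi) (hcard _ hi) with h2 | h2
      · exact h2
      · exfalso
        have h3 := hcd i (by omega)
        rw [h1, h2] at h3
        have h4 : ((n + 1 : ℕ) : ℕ∞) ≤ (fdist (Z1 n hn2) (Z2 n hn2) : ℕ∞) := by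
          exact_mod_cast fdist_Z n hn2
        exact absurd (h4.trans h3) (not_le.2 hcon)
  have h5 : Z1 n hn2 = Z2 n hn2 := by rw [← hall r le_rfl, hcr]
  have h6 : Associates.mk (bX n hn2) ∈ Z1 n hn2 :=
    Multiset.mem_map_of_mem _ (Multiset.mem_cons_self _ _)
  exact disj_Z n hn2 _ h6 (h5 ▸ h6)

lemma cEq_top : cEq H = ⊤ := by
  by_contra hcon
  obtain ⟨m, hm⟩ := ENat.ne_top_iff_exists.1 hcon
  have h1 : ((m + 6 + 1 : ℕ) : ℕ∞) ≤ cEq H :=
    (le_cEqElem (m + 6) (by omega) (by omega)).trans (le_iSup (fun a : H => cEqElem a) _)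
  rw [← hm] at h1
  have h2 : m + 6 + 1 ≤ m := by exact_mod_cast h1
  omega

lemma conductor_H : IsConductorSubmonoid H := by
  intro a ha f
  exact Or.inr (InI_mul ((not_unit_iff a).1 ha) f)

lemma factorial_F : IsFactorial F := by
  refine ⟨Fin 3, ⟨?_⟩⟩
  haveI : Unique Fˣ :=
    { default := 1
      uniq := fun u => by
        apply Units.ext
        have h := Units.mul_inv u
        have h0 := congrArg (ex 0) h
        have h1 := congrArg (ex 1) h
        have h2 := congrArg (ex 2) h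
        rw [ex_mul, ex_one] at h0 h1 h2
        apply F_ext
        · show ex 0 _ = 0
          omega
        · show ex 1 _ = 0
          omega
        · show ex 2 _ = 0
          omega }
  exact (MulEquiv.uniqueProd).symm

lemma ex_pow (t : Fin 3) (a : F) (n : ℕ) : ex t (a ^ n) = n * ex t a := by
  induction n with
  | zero => rw [pow_zero, ex_one, zero_mul]
  | succ n ih => rw [pow_succ, ex_mul, ih]; ring

lemma fg_F : Monoid.FG F := by
  rw [Monoid.fg_iff]
  refine ⟨{mon 1 0 0, mon 0 1 0, mon 0 0 1}, ?_, by simp⟩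
  rw [Submonoid.eq_top_iff']
  intro a
  have h : a = mon 1 0 0 ^ ex 0 a * mon 0 1 0 ^ ex 1 a * mon 0 0 1 ^ ex 2 a := by
    apply F_ext <;> simp only [ex_mul, ex_pow, ex0_mon, ex1_mon, ex2_mon] <;> omega
  rw [h]
  refine mul_mem (mul_mem ?_ ?_) ?_
  · exact pow_mem (Submonoid.subset_closure (by simp)) _
  · exact pow_mem (Submonoid.subset_closure (by simp)) _
  · exact pow_mem (Submonoid.subset_closure (by simp)) _

/-- **The monotone catenary degree of a conductor submonoid of a factorial monoid with finitely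
generated reduced monoid can be infinite.** -/
theorem result : ∃ (F : Type) (_ : CommMonoid F),
    IsCancelMul F ∧ IsFactorial F ∧ Monoid.FG (Associates F) ∧
      ∃ H : Submonoid F, IsConductorSubmonoid H ∧ cMon H = ⊤ := by
  refine ⟨F, inferInstance, inferInstance, factorial_F, ?_, H, conductor_H, ?_⟩
  · have := fg_F
    exact Monoid.fg_of_surjective Associates.mkMonoidHom Associates.mk_surjective
  · unfold cMon
    rw [cEq_top]
    exact top_sup_eq _

end Pool.Agent.Results.MP_d1ccd0_al.InfiniteMonotoneCatenary
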